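import Pool.Agent.Run7.h736.Lower2

open scoped ContDiff Topology
open Set MeasureTheory Filter Run7.h736

namespace Pool.Agent.Results.MP_b879c5_an.BlowupRate

/-- Every smooth real `2π`-periodic solution of `u_t = u_xxx + (u_x)² + u²` which blows up at `T`
does so exactly at the rate `1/(T-t)`: its spatial mean lies between `(1/90)/(T-t)` and `1/(T-t)`
near `T`, and `limsup_{t→T} (T-t) max_x u(x,t) ≥ 1/2`. -/
theorem result {T : ℝ} (hT : 0 < T) {u : ℝ → ℝ → ℝ} (hu : IsClassicalSol T u)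
    (hb : Tendsto (fun t => ⨆ x, |u x t|) (𝓝[<] T) atTop) :
    (∀ᶠ t in 𝓝[<] T,
      1 / 90 ≤ (T - t) * ((∫ x in (0:ℝ)..(2 * Real.pi), u x t) / (2 * Real.pi)) ∧
      (T - t) * ((∫ x in (0:ℝ)..(2 * Real.pi), u x t) / (2 * Real.pi)) ≤ 1) ∧
    (∀ m : ℝ, m < 1 / 2 → ∃ᶠ t in 𝓝[<] T, ∃ x, m < (T - t) * u x t) := by
  have hS := hu.toSol
  have hb' : Tendsto (fun t => ⨆ x, |(fun p : ℝ × ℝ => u p.1 p.2) (x, t)|) (𝓝[<] T) atTop := hb
  refine ⟨?_, fun m hm => hS.rate_sup hT hb' hm⟩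
  have h1 := hS.rate_mean hT hb'
  have h2 : ∀ᶠ t in 𝓝[<] T, t ∈ Ioo 0 T := Ioo_mem_nhdsLT hT
  filter_upwards [h1, h2] with t ht1 ht2
  exact ⟨ht1, hS.M_le t ht2⟩

end Pool.Agent.Results.MP_b879c5_an.BlowupRate
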