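import Pool.Agent.Run7.h736.Conv

open scoped ContDiff Topology
open Set MeasureTheory Filter Run7.h736

namespace Pool.Agent.Results.MP_b879c5_an.LinearStability

/-- Linear asymptotic stability of the exact blow-up solution
`U(x,t) = (T-t)⁻¹ cos²((x-t)/2)` of `u_t = u_xxx + (u_x)² + u²`: every smooth `2π`-periodic
solution `r` of the linearised equation `r_t = r_xxx + 2 U_x r_x + 2 U r` on `[0,T)` satisfies,
uniformly in `x` as `t → T`,
`(T-t) r(x,t) = α/(T-t) cos²((x-t)/2) + b(t) sin(x-t) + o(1)`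
with `α` real (a shift of the blow-up time), and a slowly drifting translation coordinate `b`,
`(T-t) b'(t) → 0`, `b(t) = o(√|log(T-t)|)`. -/
theorem result {T : ℝ} (hT : 0 < T) {r : ℝ → ℝ → ℝ} (hr : IsLinearisedSol T r) :
    ∃ (α : ℝ) (b : ℝ → ℝ),
      (∀ t ∈ Ioo 0 T, DifferentiableAt ℝ b t) ∧
      Tendsto (fun t => (T - t) * deriv b t) (𝓝[<] T) (𝓝 0) ∧
      Tendsto (fun t => b t / √|Real.log (T - t)|) (𝓝[<] T) (𝓝 0) ∧
      (∀ᶠ t in 𝓝[<] T, BddAbove (Set.range fun x => |(T - t) * r x t -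
        α / (T - t) * Real.cos ((x - t) / 2) ^ 2 - b t * Real.sin (x - t)|)) ∧
      Tendsto (fun t => ⨆ x, |(T - t) * r x t - α / (T - t) * Real.cos ((x - t) / 2) ^ 2 -
        b t * Real.sin (x - t)|) (𝓝[<] T) (𝓝 0) := by
  have hL := hr.toLSol
  obtain ⟨α, hα⟩ := hL.main hT
  refine ⟨α, fun t => -2 * bm T (shift (fun p => r p.1 p.2)) 1 t, fun t ht =>
    (hL.hasDerivAt_b ht).differentiableAt, ?_, hL.drift hT, ?_, ?_⟩
  · have h1 := (hL.tendsto_bm2 hT).const_mul (-3)
    rw [mul_zero] at h1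
    refine h1.congr' ?_
    filter_upwards [Ioo_mem_nhdsLT hT] with t ht
    have ht' : T - t ≠ 0 := (sub_pos.2 ht.2).ne'
    rw [(hL.hasDerivAt_b ht).deriv]
    field_simp
  · filter_upwards [Ioo_mem_nhdsLT hT] with t ht
    have hc : Continuous fun x => r x t := by
      have h1 : ContinuousOn (fun p : ℝ × ℝ => r p.1 p.2) (univ ×ˢ Ico 0 T) := hr.smooth.continuousOn
      have h2 : Continuous fun x : ℝ => (x, t) := by fun_prop
      exact h1.comp_continuous h2 fun x => ⟨mem_univ _, ht.1.le, ht.2⟩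
    have hc2 : Continuous fun x => |(T - t) * r x t - α / (T - t) * Real.cos ((x - t) / 2) ^ 2 -
        -2 * bm T (shift (fun p => r p.1 p.2)) 1 t * Real.sin (x - t)| := by fun_prop
    have hper : Function.Periodic (fun x => |(T - t) * r x t -
        α / (T - t) * Real.cos ((x - t) / 2) ^ 2 -
        -2 * bm T (shift (fun p => r p.1 p.2)) 1 t * Real.sin (x - t)|) (2 * Real.pi) := by
      intro x
      have e1 : r (x + 2 * Real.pi) t = r x t := hr.periodic t ⟨ht.1.le, ht.2⟩ x
      have e2 : Real.sin (x + 2 * Real.pi - t) = Real.sin (x - t) := by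
        rw [show x + 2 * Real.pi - t = (x - t) + 2 * Real.pi by ring, Real.sin_add_two_pi]
      have e3 : Real.cos ((x + 2 * Real.pi - t) / 2) = -Real.cos ((x - t) / 2) := by
        rw [show (x + 2 * Real.pi - t) / 2 = (x - t) / 2 + Real.pi by ring, Real.cos_add_pi]
      simp only [e1, e2, e3, neg_sq]
    exact (Function.Periodic.compact_of_continuous hper (by positivity) hc2).bddAbove
  · refine hα.congr fun t => ?_
    have he := (Equiv.subRight t).surjective.iSup_comp
      (fun x => |(T - t) * (shift (fun p => r p.1 p.2)) (x, t) -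
        α / (T - t) * ((1 + Real.cos x) / 2) -
        -2 * bm T (shift (fun p => r p.1 p.2)) 1 t * Real.sin x|)
    rw [← he]
    congr 1
    funext x
    have e1 : Real.cos ((x - t) / 2) ^ 2 = (1 + Real.cos (x - t)) / 2 := by
      rw [Real.cos_sq]
      have e : 2 * ((x - t) / 2) = x - t := by ring
      rw [e]; ring
    simp only [Equiv.subRight_apply, shift, sub_add_cancel, e1]

end Pool.Agent.Results.MP_b879c5_an.LinearStability
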