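import Pool.Agent.Run7.h736.Range
import Pool.Agent.Run7.h736.Exact

open scoped ContDiff
open Set MeasureTheory Run7.h736

namespace Pool.Agent.Results.MP_b879c5_an.RescaledRange

/-- value bound on the initial part of the strip -/
lemma early_value {T : ℝ} {u : ℝ → ℝ → ℝ} (hu : IsClassicalSol T u) {S : ℝ}
    (hS : S < T) : ∃ C : ℝ, 0 ≤ C ∧ ∀ t ∈ Icc 0 S, ∀ x, |u x t| ≤ C := by
  have hK : IsCompact ((Icc (0:ℝ) (2 * Real.pi)) ×ˢ (Icc (0:ℝ) S)) := isCompact_Icc.prod isCompact_Icc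
  have hsub : (Icc (0:ℝ) (2 * Real.pi)) ×ˢ (Icc (0:ℝ) S) ⊆ univ ×ˢ Ico 0 T := by
    rintro ⟨x, t⟩ ⟨_, ht⟩
    exact ⟨mem_univ _, ht.1, lt_of_le_of_lt ht.2 hS⟩
  obtain ⟨C, hC⟩ := hK.exists_bound_of_continuousOn (hu.smooth.continuousOn.mono hsub)
  refine ⟨max C 0, le_max_right _ _, fun t ht x => ?_⟩
  have hper : Function.Periodic (fun y => u y t) (2 * Real.pi) :=
    fun y => hu.periodic t ⟨ht.1, lt_of_le_of_lt ht.2 hS⟩ y
  obtain ⟨y, hy, e⟩ := hper.exists_mem_Ico₀ (by positivity) x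
  have e' : u x t = u y t := e
  rw [e']
  exact (hC (y, t) ⟨Ico_subset_Icc_self hy, ht⟩).trans (le_max_left _ _)

/-- energy bound on the initial part of the strip -/
lemma early_energy {T : ℝ} {u : ℝ → ℝ → ℝ} (hu : IsClassicalSol T u) {S : ℝ}
    (hS : S < T) : ∃ C : ℝ, 0 ≤ C ∧ ∀ t ∈ Icc 0 S,
      ∫ x in (0:ℝ)..(2 * Real.pi), (deriv (fun y => u y t) x) ^ 2 ≤ C := by
  set D : Set (ℝ × ℝ) := univ ×ˢ Ico 0 T with hD
  have huniq : UniqueDiffOn ℝ D := uniqueDiffOn_univ.prod (uniqueDiffOn_Ico 0 T)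
  have hcont : ContinuousOn (fderivWithin ℝ (fun p : ℝ × ℝ => u p.1 p.2) D) D :=
    hu.smooth.continuousOn_fderivWithin huniq (by simp)
  have hder : ∀ t ∈ Ico 0 T, ∀ x, HasDerivAt (fun y => u y t)
      (fderivWithin ℝ (fun p : ℝ × ℝ => u p.1 p.2) D (x, t) (1, 0)) x := by
    intro t ht x
    have h1 : HasFDerivWithinAt (fun p : ℝ × ℝ => u p.1 p.2)
        (fderivWithin ℝ (fun p : ℝ × ℝ => u p.1 p.2) D (x, t)) D (x, t) :=
      ((hu.smooth.differentiableOn (by simp)) (x, t) ⟨mem_univ _, ht⟩).hasFDerivWithinAt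
    have h2 : HasDerivWithinAt (fun y : ℝ => (y, t)) ((1 : ℝ), (0 : ℝ)) univ x :=
      ((hasDerivAt_id x).prodMk (hasDerivAt_const x t)).hasDerivWithinAt
    have hm : MapsTo (fun y : ℝ => (y, t)) univ D := fun y _ => ⟨mem_univ _, ht⟩
    have h3 := h1.comp_hasDerivWithinAt x h2 hm
    exact (hasDerivWithinAt_univ.1 h3)
  have hK : IsCompact ((Icc (0:ℝ) (2 * Real.pi)) ×ˢ (Icc (0:ℝ) S)) := isCompact_Icc.prod isCompact_Icc
  have hsub : (Icc (0:ℝ) (2 * Real.pi)) ×ˢ (Icc (0:ℝ) S) ⊆ D := by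
    rintro ⟨x, t⟩ ⟨_, ht⟩
    exact ⟨mem_univ _, ht.1, lt_of_le_of_lt ht.2 hS⟩
  have hcont2 : ContinuousOn (fun p => fderivWithin ℝ (fun p : ℝ × ℝ => u p.1 p.2) D p (1, 0)) D :=
    hcont.clm_apply continuousOn_const
  obtain ⟨C, hC⟩ := hK.exists_bound_of_continuousOn (hcont2.mono hsub)
  refine ⟨2 * Real.pi * C ^ 2, by positivity, fun t ht => ?_⟩
  have htT : t ∈ Ico 0 T := ⟨ht.1, lt_of_le_of_lt ht.2 hS⟩
  have hpi : 0 ≤ 2 * Real.pi := by positivity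
  have hc : Continuous (fun x => fderivWithin ℝ (fun p : ℝ × ℝ => u p.1 p.2) D (x, t) (1, 0)) := by
    have : ContinuousOn (fun x : ℝ => fderivWithin ℝ (fun p : ℝ × ℝ => u p.1 p.2) D (x, t) (1, 0))
        univ := hcont2.comp (by fun_prop) (fun x _ => ⟨mem_univ _, htT⟩)
    exact continuousOn_univ.1 this
  have e : (fun x => (deriv (fun y => u y t) x) ^ 2) =
      fun x => (fderivWithin ℝ (fun p : ℝ × ℝ => u p.1 p.2) D (x, t) (1, 0)) ^ 2 := by
    funext x; rw [(hder t htT x).deriv]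
  rw [e]
  calc ∫ x in (0:ℝ)..(2 * Real.pi), (fderivWithin ℝ (fun p : ℝ × ℝ => u p.1 p.2) D (x, t) (1, 0)) ^ 2
      ≤ ∫ _ in (0:ℝ)..(2 * Real.pi), C ^ 2 := by
        have hc' : Continuous (fun x =>
            (fderivWithin ℝ (fun p : ℝ × ℝ => u p.1 p.2) D (x, t) (1, 0)) ^ 2) := hc.pow 2
        apply intervalIntegral.integral_mono_on hpi (hc'.intervalIntegrable _ _)
          intervalIntegrable_const
        intro x hx
        have := hC (x, t) ⟨hx, ht⟩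
        rw [Real.norm_eq_abs] at this
        rw [← sq_abs]
        exact pow_le_pow_left₀ (abs_nonneg _) this 2
    _ = 2 * Real.pi * C ^ 2 := by
        rw [intervalIntegral.integral_const, smul_eq_mul, sub_zero]

theorem bound {T : ℝ} (hT : 0 < T) {u : ℝ → ℝ → ℝ} (hu : IsClassicalSol T u) :
    ∃ C : ℝ, ∀ t ∈ Set.Ico 0 T,
      (T - t) ^ 2 * ∫ x in (0:ℝ)..(2 * Real.pi), (deriv (fun y => u y t) x) ^ 2 ≤ C ∧
      ∀ x : ℝ, -C * (T - t) ^ (1 / 8 : ℝ) ≤ (T - t) * u x t ∧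
        (T - t) * u x t ≤ 1 + C * (T - t) ^ (1 / 8 : ℝ) := by
  have hS := hu.toSol
  obtain ⟨C1, hC10, hC1⟩ := hS.near_bound hT
  obtain ⟨C2, hC20, hC2⟩ := hS.A_bound hT
  set c := min 1 (T / 4) with hc
  have hc0 : 0 < c := lt_min one_pos (by linarith)
  have hc1 : c ≤ 1 := min_le_left _ _
  have hcT : c ≤ T / 4 := min_le_right _ _
  obtain ⟨C3, hC30, hC3⟩ := early_value hu (S := T - c) (by linarith)
  obtain ⟨C4, hC40, hC4⟩ := early_energy hu (S := T - c) (by linarith)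
  set k := c ^ (1 / 8 : ℝ) with hk
  have hk0 : 0 < k := Real.rpow_pos_of_pos hc0 _
  refine ⟨C1 + C2 + T * C3 / k + T ^ 2 * C4, fun t ht => ?_⟩
  have hd : 0 < T - t := by linarith [ht.2]
  have hdT : T - t ≤ T := by linarith [ht.1]
  have hdk : 0 ≤ (T - t) ^ (1 / 8 : ℝ) := Real.rpow_nonneg hd.le _
  have p1 : 0 ≤ T * C3 / k := by positivity
  have p2 : 0 ≤ T ^ 2 * C4 := by positivity
  rcases le_or_gt (T - t) c with hlt | hgt
  · -- near the final time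
    have ht' : t ∈ Ico (3 * T / 4) T := ⟨by linarith, ht.2⟩
    refine ⟨?_, fun x => ?_⟩
    · have e : ∀ x, deriv (fun y => u y t) x = dx (fun p : ℝ × ℝ => u p.1 p.2) (x, t) := by
        intro x
        exact (hasDerivAt_dx hS.sm (x := x) (t := t) ⟨by linarith [ht'.1], ht.2⟩).deriv
      have e2 : ∫ x in (0:ℝ)..(2 * Real.pi), (deriv (fun y => u y t) x) ^ 2 =
          Sol.A (fun p : ℝ × ℝ => u p.1 p.2) t := by
        simp only [e]; rfl
      rw [e2]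
      have := hC2 t ht'
      linarith
    · have h1 := hC1 t ht' (by linarith) x
      have h2 : C1 * (T - t) ^ (1 / 8 : ℝ) ≤
          (C1 + C2 + T * C3 / k + T ^ 2 * C4) * (T - t) ^ (1 / 8 : ℝ) :=
        mul_le_mul_of_nonneg_right (by linarith) hdk
      exact ⟨by linarith [h1.1], by linarith [h1.2]⟩
  · have ht' : t ∈ Icc 0 (T - c) := ⟨ht.1, by linarith⟩
    refine ⟨?_, fun x => ?_⟩
    · have h1 := hC4 t ht'
      have h0 : 0 ≤ ∫ x in (0:ℝ)..(2 * Real.pi), (deriv (fun y => u y t) x) ^ 2 :=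
        intervalIntegral.integral_nonneg (by positivity) fun _ _ => sq_nonneg _
      have h2 : (T - t) ^ 2 ≤ T ^ 2 := pow_le_pow_left₀ hd.le hdT 2
      have h3 := mul_le_mul h2 h1 h0 (by positivity)
      linarith
    · have h1 := abs_le.1 (hC3 t ht' x)
      have hkk : k ≤ (T - t) ^ (1 / 8 : ℝ) := Real.rpow_le_rpow hc0.le hgt.le (by norm_num)
      have h2 : T * C3 ≤ T * C3 / k * (T - t) ^ (1 / 8 : ℝ) := by
        calc T * C3 = T * C3 / k * k := by field_simp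
          _ ≤ _ := mul_le_mul_of_nonneg_left hkk p1
      have h3 : T * C3 / k * (T - t) ^ (1 / 8 : ℝ) ≤
          (C1 + C2 + T * C3 / k + T ^ 2 * C4) * (T - t) ^ (1 / 8 : ℝ) :=
        mul_le_mul_of_nonneg_right (by linarith) hdk
      have h4 : (T - t) * u x t ≤ T * C3 := by nlinarith
      have h5 : -(T * C3) ≤ (T - t) * u x t := by nlinarith
      exact ⟨by linarith, by linarith⟩

/-- Every smooth real `2π`-periodic solution of `u_t = u_xxx + (u_x)² + u²` on `ℝ × [0,T)` has a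
rescaled orbit `(T-t) u` bounded in `H¹`, and `(T-t) u` approaches the interval `[0,1]`
uniformly, with a rate; both end points of `[0,1]` are attained at every time by one solution. -/
theorem result {T : ℝ} (hT : 0 < T) :
    (∀ u : ℝ → ℝ → ℝ, IsClassicalSol T u → ∃ C : ℝ, ∀ t ∈ Set.Ico 0 T,
      (T - t) ^ 2 * ∫ x in (0:ℝ)..(2 * Real.pi), (deriv (fun y => u y t) x) ^ 2 ≤ C ∧
      ∀ x : ℝ, -C * (T - t) ^ (1 / 8 : ℝ) ≤ (T - t) * u x t ∧
        (T - t) * u x t ≤ 1 + C * (T - t) ^ (1 / 8 : ℝ)) ∧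
    (∃ u : ℝ → ℝ → ℝ, IsClassicalSol T u ∧ ∀ t ∈ Set.Ico 0 T,
      (∃ x, (T - t) * u x t = 1) ∧ (∃ x, (T - t) * u x t = 0)) :=
  ⟨fun _ hu => bound hT hu, Uex T, Uex_sol T, fun _ ht => Uex_range ht.2⟩

end Pool.Agent.Results.MP_b879c5_an.RescaledRange
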